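import Pool.Agent.H91.RF.TargetsF
import Pool.Agent.H29.TF.Heat

/-! Module KE1 of the board `rf_modules`: iterated kernels, measurability and bounds. -/

open MeasureTheory Set Filter Topology Metric
open Pool.Agent.H29.TF
open Pool.Agent.H91.RD Pool.Agent.H91.RF

namespace Pool.Agent.H48.RF

variable {N : ℕ}

/-! ### Measurability -/

/-- the inner integrand -/
noncomputable def inn (V : ℝ → E N → ℝ) (n : ℕ) (p : (ℝ × E N) × (ℝ × E N)) (r : ℝ) (z : E N) : ℝ :=
  hk (p.1.1 - r) (p.1.2 - z) * (V r z * gkn V n r z p.2.1 p.2.2)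

theorem measurable_inn {V : ℝ → E N → ℝ} (hV : Measurable (fun p : ℝ × E N => V p.1 p.2)) (n : ℕ)
    (hn : Measurable (fun p : (ℝ × E N) × (ℝ × E N) => gkn V n p.1.1 p.1.2 p.2.1 p.2.2)) :
    Measurable (fun q : (((ℝ × E N) × (ℝ × E N)) × ℝ) × E N => inn V n q.1.1 q.1.2 q.2) := by
  unfold inn
  refine Measurable.mul ?_ (Measurable.mul ?_ ?_)
  · have h1 : Measurable (fun q : (((ℝ × E N) × (ℝ × E N)) × ℝ) × E N =>
        ((q.1.1.1.1 - q.1.2 : ℝ), (q.1.1.1.2 - q.2 : E N))) := by fun_prop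
    exact (measurable_hk_uncurry (V := E N)).comp h1
  · have h1 : Measurable (fun q : (((ℝ × E N) × (ℝ × E N)) × ℝ) × E N =>
        ((q.1.2 : ℝ), (q.2 : E N))) := by fun_prop
    exact hV.comp h1
  · have h1 : Measurable (fun q : (((ℝ × E N) × (ℝ × E N)) × ℝ) × E N =>
        (((q.1.2, q.2) : ℝ × E N), ((q.1.1.2.1, q.1.1.2.2) : ℝ × E N))) := by fun_prop
    exact hn.comp h1

theorem measurable_int_inn {V : ℝ → E N → ℝ} (hV : Measurable (fun p : ℝ × E N => V p.1 p.2)) (n : ℕ)
    (hn : Measurable (fun p : (ℝ × E N) × (ℝ × E N) => gkn V n p.1.1 p.1.2 p.2.1 p.2.2)) :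
    Measurable (fun q : ((ℝ × E N) × (ℝ × E N)) × ℝ => ∫ z, inn V n q.1 q.2 z) :=
  ((measurable_inn hV n hn).stronglyMeasurable.integral_prod_right').measurable

theorem gkn_succ (V : ℝ → E N → ℝ) (n : ℕ) (t : ℝ) (x : E N) (s : ℝ) (y : E N) :
    gkn V (n + 1) t x s y = ∫ r in s..t, ∫ z, inn V n ((t, x), (s, y)) r z := rfl

theorem measurable_gkn {V : ℝ → E N → ℝ} (hV : Measurable (fun p : ℝ × E N => V p.1 p.2)) (n : ℕ) :
    Measurable (fun p : (ℝ × E N) × (ℝ × E N) => gkn V n p.1.1 p.1.2 p.2.1 p.2.2) := by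
  induction n with
  | zero =>
    have h1 : Measurable (fun p : (ℝ × E N) × (ℝ × E N) =>
        ((p.1.1 - p.2.1 : ℝ), (p.1.2 - p.2.2 : E N))) := by fun_prop
    exact (measurable_hk_uncurry (V := E N)).comp h1
  | succ n ih =>
    have hI := measurable_int_inn hV n ih
    have hset : ∀ (a b : (ℝ × E N) × (ℝ × E N) → ℝ), Measurable a → Measurable b →
        Measurable (fun p : (ℝ × E N) × (ℝ × E N) =>
          ∫ r in Ioc (a p) (b p), ∫ z, inn V n p r z) := by
      intro a b ha hb
      have h1 : ∀ p : (ℝ × E N) × (ℝ × E N), (∫ r in Ioc (a p) (b p), ∫ z, inn V n p r z) =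
          ∫ r, {q : ((ℝ × E N) × (ℝ × E N)) × ℝ | a q.1 < q.2 ∧ q.2 ≤ b q.1}.indicator
            (fun q => ∫ z, inn V n q.1 q.2 z) (p, r) := by
        intro p
        rw [← integral_indicator measurableSet_Ioc]
        rfl
      simp_rw [h1]
      have hm : MeasurableSet {q : ((ℝ × E N) × (ℝ × E N)) × ℝ | a q.1 < q.2 ∧ q.2 ≤ b q.1} :=
        (measurableSet_lt (ha.comp measurable_fst) measurable_snd).inter
          (measurableSet_le measurable_snd (hb.comp measurable_fst))
      exact ((hI.indicator hm).stronglyMeasurable.integral_prod_right').measurable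
    have h2 : ∀ p : (ℝ × E N) × (ℝ × E N), gkn V (n + 1) p.1.1 p.1.2 p.2.1 p.2.2 =
        (∫ r in Ioc p.2.1 p.1.1, ∫ z, inn V n p r z) - ∫ r in Ioc p.1.1 p.2.1, ∫ z, inn V n p r z := by
      intro p
      rw [gkn_succ, intervalIntegral]
    simp_rw [h2]
    exact (hset (fun p => p.2.1) (fun p => p.1.1) (by fun_prop) (by fun_prop)).sub
      (hset (fun p => p.1.1) (fun p => p.2.1) (by fun_prop) (by fun_prop))

/-! ### Bounds -/

theorem integrable_hkhk {s r t : ℝ} (hsr : s < r) (hrt : r < t) (x y : E N) :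
    Integrable (fun z : E N => hk (t - r) (x - z) * hk (r - s) (z - y)) := by
  refine Integrable.bdd_mul (c := hk (t - r) (0 : E N)) ?_ ?_ ?_
  · exact (integrable_hk (sub_pos.2 hsr)).comp_sub_right y
  · exact Continuous.aestronglyMeasurable (by fun_prop)
  · refine Filter.Eventually.of_forall fun z => ?_
    rw [Real.norm_of_nonneg (hk_nonneg (sub_pos.2 hrt).le _)]
    exact hk_le (sub_pos.2 hrt) _

theorem integral_hkhk {s r t : ℝ} (hsr : s < r) (hrt : r < t) (x y : E N) :
    ∫ z : E N, hk (t - r) (x - z) * hk (r - s) (z - y) = hk (t - s) (x - y) := by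
  rw [semigroup_hk (sub_pos.2 hrt) (sub_pos.2 hsr)]
  congr 1
  ring

/-- pointwise bound of the inner integrand -/
theorem inner_bound {K C s r t : ℝ} {V : ℝ → E N → ℝ} (hV : Pt K V) (hrt : r < t)
    (x y : E N) {g : E N → ℝ} (hg : ∀ z, |g z| ≤ C * hk (r - s) (z - y)) (z : E N) :
    ‖hk (t - r) (x - z) * (V r z * g z)‖ ≤
      K * C * (hk (t - r) (x - z) * hk (r - s) (z - y)) := by
  have h1 := hk_nonneg (sub_pos.2 hrt).le (x - z)
  rw [norm_mul, norm_mul, Real.norm_of_nonneg h1, Real.norm_eq_abs, Real.norm_eq_abs]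
  have h2 : |V r z| * |g z| ≤ K * (C * hk (r - s) (z - y)) :=
    mul_le_mul (hV.bdd r z) (hg z) (abs_nonneg _) hV.K0.le
  calc hk (t - r) (x - z) * (|V r z| * |g z|)
      ≤ hk (t - r) (x - z) * (K * (C * hk (r - s) (z - y))) := mul_le_mul_of_nonneg_left h2 h1
    _ = _ := by ring

theorem inner_int {K C s r t : ℝ} {V : ℝ → E N → ℝ} (hV : Pt K V) (hsr : s < r) (hrt : r < t)
    (x y : E N) {g : E N → ℝ} (hgm : Measurable g) (hg : ∀ z, |g z| ≤ C * hk (r - s) (z - y)) :
    Integrable (fun z => hk (t - r) (x - z) * (V r z * g z)) := by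
  refine ((integrable_hkhk hsr hrt x y).const_mul (K * C)).mono' ?_
    (Filter.Eventually.of_forall fun z => inner_bound hV hrt x y hg z)
  have h1 : Measurable fun z : E N => V r z := hV.meas.comp (by fun_prop : Measurable fun z : E N => (r, z))
  exact (Continuous.aestronglyMeasurable (by fun_prop)).mul (h1.mul hgm).aestronglyMeasurable

theorem inner_le {K C s r t : ℝ} {V : ℝ → E N → ℝ} (hV : Pt K V) (hsr : s < r) (hrt : r < t)
    (x y : E N) {g : E N → ℝ} (hg : ∀ z, |g z| ≤ C * hk (r - s) (z - y)) :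
    ‖∫ z, hk (t - r) (x - z) * (V r z * g z)‖ ≤ K * C * hk (t - s) (x - y) := by
  refine (norm_integral_le_of_norm_le ((integrable_hkhk hsr hrt x y).const_mul (K * C))
    (Filter.Eventually.of_forall fun z => inner_bound hV hrt x y hg z)).trans_eq ?_
  rw [integral_const_mul, integral_hkhk hsr hrt]

theorem inner_norm_le {K C s r t : ℝ} {V : ℝ → E N → ℝ} (hV : Pt K V) (hsr : s < r) (hrt : r < t)
    (x y : E N) {g : E N → ℝ} (hgm : Measurable g) (hg : ∀ z, |g z| ≤ C * hk (r - s) (z - y)) :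
    ∫ z, ‖hk (t - r) (x - z) * (V r z * g z)‖ ≤ K * C * hk (t - s) (x - y) := by
  refine (integral_mono (inner_int hV hsr hrt x y hgm hg).norm
    ((integrable_hkhk hsr hrt x y).const_mul (K * C))
    (fun z => inner_bound hV hrt x y hg z)).trans_eq ?_
  rw [integral_const_mul, integral_hkhk hsr hrt]

/-- the constant in the bound of the iterated kernels -/
noncomputable def cn (K : ℝ) (n : ℕ) (τ : ℝ) : ℝ := (K * τ) ^ n / (n.factorial : ℝ)

theorem cn_succ (K : ℝ) (n : ℕ) (s t : ℝ) :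
    ∫ r in s..t, K * cn K n (r - s) = cn K (n + 1) (t - s) := by
  have h1 : ∀ r : ℝ, K * cn K n (r - s) = K ^ (n + 1) / (n.factorial : ℝ) * (r - s) ^ n := by
    intro r
    unfold cn
    rw [mul_pow]
    ring
  simp_rw [h1]
  rw [intervalIntegral.integral_const_mul, intervalIntegral.integral_comp_sub_right (fun x => x ^ n) s,
    integral_pow]
  unfold cn
  have h2 : ((n + 1).factorial : ℝ) = (n + 1 : ℝ) * (n.factorial : ℝ) := by
    rw [Nat.factorial_succ]; push_cast; ring
  have h3 : (n.factorial : ℝ) ≠ 0 := by positivity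
  have h4 : (n + 1 : ℝ) ≠ 0 := by positivity
  rw [h2, sub_self, mul_pow]
  field_simp
  ring

theorem gkn_bound {K : ℝ} {V : ℝ → E N → ℝ} (hV : Pt K V) (n : ℕ) : ∀ s t, s < t → ∀ x y : E N,
    |gkn V n t x s y| ≤ cn K n (t - s) * hk (t - s) (x - y) := by
  induction n with
  | zero =>
    intro s t hst x y
    show |hk (t - s) (x - y)| ≤ _
    rw [abs_of_nonneg (hk_nonneg (sub_pos.2 hst).le _)]
    simp [cn]
  | succ n ih =>
    intro s t hst x y
    rw [gkn_succ, ← Real.norm_eq_abs, ← cn_succ, ← intervalIntegral.integral_mul_const]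
    refine intervalIntegral.norm_integral_le_of_norm_le hst.le ?_ ?_
    · filter_upwards [compl_mem_ae_iff.2 (measure_singleton t)] with r hr hr'
      have hrt : r < t := lt_of_le_of_ne hr'.2 hr
      exact inner_le hV hr'.1 hrt x y (fun z => ih s r hr'.1 z y)
    · apply Continuous.intervalIntegrable
      unfold cn
      fun_prop

theorem summable_cn (K τ : ℝ) : Summable fun n => cn K n τ := Real.summable_pow_div_factorial _

theorem summable_gkn {K : ℝ} {V : ℝ → E N → ℝ} (hV : Pt K V) {s t : ℝ} (hst : s < t) (x y : E N) :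
    Summable (fun n => gkn V n t x s y) :=
  Summable.of_norm_bounded ((summable_cn K (t - s)).mul_right _)
    (fun n => gkn_bound hV n s t hst x y)

theorem measurable_gk {K : ℝ} {V : ℝ → E N → ℝ} (hV : Pt K V) :
    Measurable (fun p : (ℝ × E N) × (ℝ × E N) =>
      if p.2.1 < p.1.1 then gk V p.1.1 p.1.2 p.2.1 p.2.2 else 0) := by
  refine measurable_of_tendsto_metrizable
    (f := fun (n : ℕ) (p : (ℝ × E N) × (ℝ × E N)) =>
      if p.2.1 < p.1.1 then ∑ i ∈ Finset.range n, gkn V i p.1.1 p.1.2 p.2.1 p.2.2 else 0) ?_ ?_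
  · intro n
    refine Measurable.ite (measurableSet_lt (by fun_prop) (by fun_prop)) ?_ measurable_const
    exact Finset.measurable_sum _ fun i _ => measurable_gkn hV.meas i
  · rw [tendsto_pi_nhds]
    intro p
    by_cases h : p.2.1 < p.1.1
    · simp only [h, if_true]
      exact (summable_gkn hV h p.1.2 p.2.2).hasSum.tendsto_sum_nat
    · simp only [h, if_false]
      exact tendsto_const_nhds

theorem ke1 : T_KE1 := by
  intro N K V hV
  refine ⟨measurable_gkn hV.meas, fun n s t hst x y => gkn_bound hV n s t hst x y,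
    fun s t hst x y => summable_gkn hV hst x y, fun s => ?_⟩
  have h1 : Measurable (fun p : (ℝ × E N) × E N => (p.1, (s, p.2))) := by fun_prop
  exact (measurable_gk hV).comp h1

end Pool.Agent.H48.RF
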