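import Pool.Agent.H91.RF.TargetsR
import Pool.Agent.H90.RD.Line

/-!
# Module DBL: doubling of variables, propagation of a Lipschitz bound
-/

open MeasureTheory Set Filter Topology Metric
open Pool.Agent.H91.RD

namespace Pool.Agent.H48.RF.DBL

open Pool.Agent.H90.RD

variable {N : ℕ}

/-- left difference quotients at a maximum in time -/
lemma time_nonneg {f : ℝ → ℝ} {d t : ℝ} (hd : HasDerivAt f d t) (ht : 0 < t)
    (hm : ∀ s ∈ Ioo 0 t, f s ≤ f t) : 0 ≤ d := by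
  have h1 : Tendsto (slope f t) (𝓝[<] t) (𝓝 d) :=
    (hasDerivAt_iff_tendsto_slope.1 hd).mono_left (nhdsWithin_mono _ fun s hs => ne_of_lt hs)
  refine ge_of_tendsto h1 ?_
  filter_upwards [Ioo_mem_nhdsLT ht] with s hs
  rw [slope_def_field]
  have h2 := hm s hs
  have h3 : s - t < 0 := by linarith [hs.2]
  exact div_nonneg_of_nonpos (by linarith) h3.le

/-- the gradient of `g` at a local maximum of `g - ‖· - y‖ - ε ‖·‖²` -/
lemma grad_near {g : E N → ℝ} {x y : E N} {ε : ℝ} (hε : 0 < ε) (hxy : x ≠ y)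
    (hg : DifferentiableAt ℝ g x)
    (hm : IsLocalMax (fun z => g z - ‖z - y‖ - ε * ‖z‖ ^ 2) x) :
    |‖fderiv ℝ g x‖ - 1| ≤ 2 * ε * ‖x‖ := by
  have hne : x - y ≠ 0 := sub_ne_zero.2 hxy
  have : Nontrivial (E N) := ⟨x, y, hxy⟩
  have h1 : DifferentiableAt ℝ (fun z : E N => ‖z‖) (x - y) :=
    (contDiffAt_norm ℝ hne (n := 1)).differentiableAt (by norm_num)
  have h2 : HasFDerivAt (fun z : E N => ‖z - y‖) (fderiv ℝ (fun z : E N => ‖z‖) (x - y)) x := by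
    have h3 : HasFDerivAt (fun z : E N => z - y) (ContinuousLinearMap.id ℝ (E N)) x :=
      (hasFDerivAt_id x).sub_const y
    have h9 : HasFDerivAt ((fun z : E N => ‖z‖) ∘ fun z => z - y)
        ((fderiv ℝ (fun z : E N => ‖z‖) (x - y)).comp (ContinuousLinearMap.id ℝ (E N))) x :=
      h1.hasFDerivAt.comp x h3
    rw [ContinuousLinearMap.comp_id] at h9
    exact h9
  have h4 : HasFDerivAt (fun z : E N => ε * ‖z‖ ^ 2) (ε • (2 • innerSL ℝ x)) x :=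
    (hasStrictFDerivAt_norm_sq x).hasFDerivAt.const_mul ε
  have h5 := (hg.hasFDerivAt.sub h2).sub h4
  have h6 := hm.hasFDerivAt_eq_zero h5
  have h7 : fderiv ℝ g x - fderiv ℝ (fun z : E N => ‖z‖) (x - y) = ε • (2 • innerSL ℝ x) :=
    sub_eq_zero.1 h6
  have h8 : ‖fderiv ℝ (fun z : E N => ‖z‖) (x - y)‖ = 1 := norm_fderiv_norm h1
  have h9 := abs_norm_sub_norm_le (fderiv ℝ g x) (fderiv ℝ (fun z : E N => ‖z‖) (x - y))
  rw [h8, h7] at h9
  refine h9.trans (le_of_eq ?_)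
  have h10 : (2 • innerSL ℝ x : E N →L[ℝ] ℝ) = (2 : ℝ) • innerSL ℝ x := by
    rw [two_smul, two_smul]
  rw [norm_smul, Real.norm_eq_abs, abs_of_pos hε, h10, norm_smul, innerSL_apply_norm]
  norm_num
  ring

/-- second order condition -/
lemma second_order {g : E N → ℝ} {x y : E N} {ε : ℝ} (hg : ContDiff ℝ 2 g)
    (hm : ∀ h : E N, g (x + h) - g (y + h) - ε * (‖x + h‖ ^ 2 + ‖y + h‖ ^ 2) ≤
      g x - g y - ε * (‖x‖ ^ 2 + ‖y‖ ^ 2)) :
    Laplacian.laplacian g x - Laplacian.laplacian g y ≤ 4 * N * ε := by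
  set G : E N → ℝ := fun h => g (y + h) - g (x + h) + ε * (‖x + h‖ ^ 2 + ‖y + h‖ ^ 2) with hG
  have hG2 : ContDiff ℝ 2 G := by
    have h1 : ContDiff ℝ 2 fun h : E N => g (y + h) := hg.comp (contDiff_const.add contDiff_id)
    have h2 : ContDiff ℝ 2 fun h : E N => g (x + h) := hg.comp (contDiff_const.add contDiff_id)
    have h3 : ContDiff ℝ 2 fun h : E N => ‖x + h‖ ^ 2 := (contDiff_const.add contDiff_id).norm_sq ℝ
    have h4 : ContDiff ℝ 2 fun h : E N => ‖y + h‖ ^ 2 := (contDiff_const.add contDiff_id).norm_sq ℝ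
    exact (h1.sub h2).add (contDiff_const.mul (h3.add h4))
  have hmin : IsLocalMin G 0 := by
    refine Filter.Eventually.of_forall fun h => ?_
    have := hm h
    simp only [hG, add_zero]
    linarith
  have key : ∀ v : E N, ‖v‖ = 1 → fderiv ℝ (fderiv ℝ g) x v v - fderiv ℝ (fderiv ℝ g) y v v ≤ 4 * ε := by
    intro v hv
    have h0 := line_nonneg hG2.contDiffAt hmin v
    have hl : ∀ (z : E N) (t : ℝ), HasDerivAt (fun t : ℝ => z + t • v) v t := by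
      intro z t
      have := ((hasDerivAt_id t).smul_const v).const_add z
      simpa using this
    have h1 : ∀ t, HasDerivAt (fun t : ℝ => G (0 + t • v))
        (fderiv ℝ g (y + t • v) v - fderiv ℝ g (x + t • v) v +
          ε * (2 * inner ℝ (x + t • v) v + 2 * inner ℝ (y + t • v) v)) t := by
      intro t
      have hd : Differentiable ℝ g := hg.differentiable (by norm_num)
      have a1 := hasDerivAt_line1 (x := y) (v := v) (t := t) (hd _)
      have a2 := hasDerivAt_line1 (x := x) (v := v) (t := t) (hd _)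
      have a3 := (hl x t).norm_sq
      have a4 := (hl y t).norm_sq
      have a5 := (a1.sub a2).add ((a3.add a4).const_mul ε)
      refine a5.congr_of_eventuallyEq (Filter.Eventually.of_forall fun s => ?_)
      simp [hG]
    have h2 : HasDerivAt (fun t : ℝ => fderiv ℝ g (y + t • v) v - fderiv ℝ g (x + t • v) v +
          ε * (2 * inner ℝ (x + t • v) v + 2 * inner ℝ (y + t • v) v))
        (fderiv ℝ (fderiv ℝ g) y v v - fderiv ℝ (fderiv ℝ g) x v v + ε * 4) 0 := by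
      have b1 := hasDerivAt_line2 hg.contDiffAt (x := y) v
      have b2 := hasDerivAt_line2 hg.contDiffAt (x := x) v
      have b3 : ∀ z : E N, HasDerivAt (fun t : ℝ => 2 * inner ℝ (z + t • v) v) 2 0 := by
        intro z
        have c1 := ((hl z 0).inner ℝ (hasDerivAt_const (0 : ℝ) v)).const_mul 2
        simpa [hv] using c1
      have b4 := (b1.sub b2).add (((b3 x).add (b3 y)).const_mul ε)
      refine b4.congr_deriv ?_
      ring
    have h3 := line_eq hG2.contDiffAt h1 h2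
    rw [h3] at h0
    linarith
  rw [lap_eq_sum, lap_eq_sum, ← Finset.sum_sub_distrib]
  refine (Finset.sum_le_sum fun i _ => key _ ((EuclideanSpace.basisFun (Fin N) ℝ).norm_eq_one i)).trans
    (le_of_eq ?_)
  rw [Finset.sum_const, Finset.card_univ, Fintype.card_fin, nsmul_eq_mul]
  ring

/-- choice of the penalisation -/
lemma exists_eps {c n A M lam mu : ℝ} (hlam : 0 < lam) (hmu : 0 < mu) :
    ∃ ε > 0, ε * c ≤ mu ∧
      4 * n * ε + 2 * A * (2 * √(8 * M * ε) + 8 * M * ε) < lam := by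
  have h1 : Tendsto (fun ε : ℝ => ε * c) (𝓝[>] 0) (𝓝 0) := by
    have : Continuous fun ε : ℝ => ε * c := by fun_prop
    have h2 := this.tendsto 0
    rw [zero_mul] at h2
    exact h2.mono_left nhdsWithin_le_nhds
  have h2 : Tendsto (fun ε : ℝ => 4 * n * ε + 2 * A * (2 * √(8 * M * ε) + 8 * M * ε)) (𝓝[>] 0) (𝓝 0) := by
    have : Continuous fun ε : ℝ => 4 * n * ε + 2 * A * (2 * √(8 * M * ε) + 8 * M * ε) := by fun_prop
    have h2 := this.tendsto 0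
    have h3 : 4 * n * (0 : ℝ) + 2 * A * (2 * √(8 * M * 0) + 8 * M * 0) = 0 := by simp
    rw [h3] at h2
    exact h2.mono_left nhdsWithin_le_nhds
  have h3 := (h1.eventually (gt_mem_nhds hmu)).and ((h2.eventually (gt_mem_nhds hlam)).and self_mem_nhdsWithin)
  obtain ⟨ε, h4, h5, h6⟩ := h3.exists
  exact ⟨ε, h6, h4.le, h5⟩

lemma sq_bound {r ρ M ε : ℝ} (hr : |r - 1| ≤ ρ) (hρ : ρ ^ 2 ≤ 8 * M * ε) :
    |r ^ 2 - 1| ≤ 2 * √(8 * M * ε) + 8 * M * ε := by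
  have hρ0 : 0 ≤ ρ := (abs_nonneg _).trans hr
  have h1 : ρ ≤ √(8 * M * ε) := Real.le_sqrt_of_sq_le hρ
  have h2 : r ^ 2 - 1 = (r - 1) * (2 + (r - 1)) := by ring
  rw [h2, abs_mul]
  have h3 : |2 + (r - 1)| ≤ 2 + ρ := (abs_add_le _ _).trans (by rw [abs_of_pos (by norm_num : (0 : ℝ) < 2)]; linarith)
  calc |r - 1| * |2 + (r - 1)| ≤ ρ * (2 + ρ) := mul_le_mul hr h3 (abs_nonneg _) hρ0
    _ = 2 * ρ + ρ ^ 2 := by ring
    _ ≤ _ := by linarith

theorem core {T Zm A : ℝ} {Z : ℝ → E N → ℝ} {a : ℝ → ℝ → ℝ} (hT : 0 < T)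
    (hc : ContinuousOn (fun p : ℝ × E N => Z p.1 p.2) (Icc 0 T ×ˢ univ))
    (hb : ∀ t ∈ Icc 0 T, ∀ x, |Z t x| ≤ Zm) (h0 : ∀ x y, |Z 0 x - Z 0 y| ≤ ‖x - y‖)
    (h2 : ∀ t ∈ Ioc 0 T, ContDiff ℝ 2 (Z t)) (ha : ∀ t s, |a t s| ≤ A)
    (he : ∀ t ∈ Ioc 0 T, ∀ x, HasDerivAt (fun s => Z s x)
      (Laplacian.laplacian (Z t) x + a t (Z t x) * (‖fderiv ℝ (Z t) x‖ ^ 2 - 1)) t)
    {t1 : ℝ} (ht1 : t1 ∈ Icc 0 T) {x1 y1 : E N} {μ : ℝ} (hμ : 0 < μ)
    (h : ‖x1 - y1‖ + 3 * μ ≤ Z t1 x1 - Z t1 y1) : False := by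
  have hA0 : 0 ≤ A := (abs_nonneg _).trans (ha 0 0)
  have hZ0 : 0 ≤ Zm := (abs_nonneg _).trans (hb 0 ⟨le_rfl, hT.le⟩ 0)
  set lam := μ / T with hlam
  have hlam0 : 0 < lam := div_pos hμ hT
  have hlamT : lam * T = μ := by rw [hlam]; field_simp
  obtain ⟨ε, hε, hε1, hε2⟩ := exists_eps (c := ‖x1‖ ^ 2 + ‖y1‖ ^ 2) (n := N) (A := A) (M := Zm)
    hlam0 hμ
  set Φ : ℝ × E N × E N → ℝ := fun p => Z p.1 p.2.1 - Z p.1 p.2.2 - ‖p.2.1 - p.2.2‖ - lam * p.1 -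
    ε * (‖p.2.1‖ ^ 2 + ‖p.2.2‖ ^ 2) with hΦ
  obtain ⟨R, hR1, hR2, hR3⟩ : ∃ R, ‖x1‖ ≤ R ∧ ‖y1‖ ≤ R ∧ 2 * Zm ≤ ε * R ^ 2 := by
    refine ⟨max (max ‖x1‖ ‖y1‖) (√(2 * Zm / ε)), ?_, ?_, ?_⟩
    · exact (le_max_left _ _).trans (le_max_left _ _)
    · exact (le_max_right _ _).trans (le_max_left _ _)
    · have h3 : √(2 * Zm / ε) ≤ max (max ‖x1‖ ‖y1‖) (√(2 * Zm / ε)) := le_max_right _ _
      have h4 : √(2 * Zm / ε) ^ 2 ≤ (max (max ‖x1‖ ‖y1‖) (√(2 * Zm / ε))) ^ 2 :=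
        pow_le_pow_left₀ (Real.sqrt_nonneg _) h3 2
      rw [Real.sq_sqrt (by positivity)] at h4
      have h5 := mul_le_mul_of_nonneg_left h4 hε.le
      rwa [mul_div_cancel₀ _ hε.ne'] at h5
  set K : Set (ℝ × E N × E N) := Icc 0 T ×ˢ (closedBall 0 R ×ˢ closedBall 0 R) with hK
  have hKc : IsCompact K := isCompact_Icc.prod ((isCompact_closedBall _ _).prod (isCompact_closedBall _ _))
  have hmem1 : (t1, x1, y1) ∈ K := ⟨ht1, by simpa using hR1, by simpa using hR2⟩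
  have hΦc : ContinuousOn Φ K := by
    have c1 : ContinuousOn (fun p : ℝ × E N × E N => Z p.1 p.2.1) K := by
      refine hc.comp (f := fun p : ℝ × E N × E N => (p.1, p.2.1)) (by fun_prop) ?_
      rintro ⟨t, x, y⟩ hp
      exact ⟨hp.1, mem_univ _⟩
    have c2 : ContinuousOn (fun p : ℝ × E N × E N => Z p.1 p.2.2) K := by
      refine hc.comp (f := fun p : ℝ × E N × E N => (p.1, p.2.2)) (by fun_prop) ?_
      rintro ⟨t, x, y⟩ hp
      exact ⟨hp.1, mem_univ _⟩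
    exact (((c1.sub c2).sub (by fun_prop)).sub (by fun_prop)).sub (by fun_prop)
  obtain ⟨⟨t0, x0, y0⟩, hmem, hmax⟩ := hKc.exists_isMaxOn ⟨_, hmem1⟩ hΦc
  have ht0 : t0 ∈ Icc 0 T := hmem.1
  have hΦ1 : μ ≤ Φ (t1, x1, y1) := by
    have : lam * t1 ≤ μ := by
      rw [← hlamT]; exact mul_le_mul_of_nonneg_left ht1.2 hlam0.le
    simp only [hΦ]
    linarith
  have hΦ0 : μ ≤ Φ (t0, x0, y0) := hΦ1.trans (hmax hmem1)
  have hglob : ∀ t ∈ Icc 0 T, ∀ x y, Φ (t, x, y) ≤ Φ (t0, x0, y0) := by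
    intro t ht x y
    by_cases hxy : ‖x‖ ≤ R ∧ ‖y‖ ≤ R
    · exact hmax (show (t, x, y) ∈ K from ⟨ht, by simpa using hxy.1, by simpa using hxy.2⟩)
    · have hR0 : 0 ≤ R := (norm_nonneg _).trans hR1
      have h3 : R ^ 2 ≤ ‖x‖ ^ 2 + ‖y‖ ^ 2 := by
        rcases not_and_or.1 hxy with h4 | h4
        · push Not at h4
          nlinarith [sq_nonneg ‖y‖]
        · push Not at h4
          nlinarith [sq_nonneg ‖x‖]
      have h4 := mul_le_mul_of_nonneg_left h3 hε.le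
      have h5 := abs_le.1 (hb t ht x)
      have h6 := abs_le.1 (hb t ht y)
      have h7 : 0 ≤ lam * t := mul_nonneg hlam0.le ht.1
      have h8 : Φ (t, x, y) ≤ 0 := by
        simp only [hΦ]
        linarith [norm_nonneg (x - y), h5.2, h6.1]
      linarith
  have hlt0 : 0 ≤ lam * t0 := mul_nonneg hlam0.le ht0.1
  have hΦ0' : μ ≤ Z t0 x0 - Z t0 y0 - ‖x0 - y0‖ - lam * t0 - ε * (‖x0‖ ^ 2 + ‖y0‖ ^ 2) := hΦ0
  have ht0pos : 0 < t0 := by
    rcases ht0.1.lt_or_eq with h3 | h3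
    · exact h3
    · exfalso
      rw [← h3] at hΦ0'
      have h4 := (abs_le.1 (h0 x0 y0)).2
      nlinarith [sq_nonneg ‖x0‖, sq_nonneg ‖y0‖]
  have ht0' : t0 ∈ Ioc 0 T := ⟨ht0pos, ht0.2⟩
  have hne : x0 ≠ y0 := by
    rintro rfl
    nlinarith [sq_nonneg ‖x0‖, norm_nonneg (x0 - x0)]
  have hx0 : ε * ‖x0‖ ^ 2 ≤ 2 * Zm := by
    have h5 := abs_le.1 (hb t0 ht0 x0)
    have h6 := abs_le.1 (hb t0 ht0 y0)
    nlinarith [sq_nonneg ‖y0‖, norm_nonneg (x0 - y0), mul_nonneg hε.le (sq_nonneg ‖y0‖)]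
  have hy0 : ε * ‖y0‖ ^ 2 ≤ 2 * Zm := by
    have h5 := abs_le.1 (hb t0 ht0 x0)
    have h6 := abs_le.1 (hb t0 ht0 y0)
    nlinarith [sq_nonneg ‖x0‖, norm_nonneg (x0 - y0), mul_nonneg hε.le (sq_nonneg ‖x0‖)]
  have hC2 := h2 t0 ht0'
  have hdiff : Differentiable ℝ (Z t0) := hC2.differentiable (by norm_num)
  -- gradients
  have g1 : |‖fderiv ℝ (Z t0) x0‖ - 1| ≤ 2 * ε * ‖x0‖ := by
    refine grad_near hε hne (hdiff _) (Filter.Eventually.of_forall fun z => ?_)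
    have := hglob t0 ht0 z y0
    simp only [hΦ] at this
    linarith
  have g2 : |‖fderiv ℝ (Z t0) y0‖ - 1| ≤ 2 * ε * ‖y0‖ := by
    have h3 : |‖fderiv ℝ (fun z => -Z t0 z) y0‖ - 1| ≤ 2 * ε * ‖y0‖ := by
      refine grad_near hε hne.symm (hdiff _).neg (Filter.Eventually.of_forall fun z => ?_)
      have := hglob t0 ht0 x0 z
      simp only [hΦ] at this
      rw [norm_sub_rev x0 z, norm_sub_rev x0 y0] at this
      linarith
    have h4 : fderiv ℝ (fun z => -Z t0 z) y0 = -fderiv ℝ (Z t0) y0 := fderiv_fun_neg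
    rwa [h4, norm_neg] at h3
  have s1 := sq_bound (M := Zm) (ε := ε) g1 (by nlinarith [hx0, hε])
  have s2 := sq_bound (M := Zm) (ε := ε) g2 (by nlinarith [hy0, hε])
  -- second order
  have l1 : Laplacian.laplacian (Z t0) x0 - Laplacian.laplacian (Z t0) y0 ≤ 4 * N * ε := by
    refine second_order hC2 fun k => ?_
    have := hglob t0 ht0 (x0 + k) (y0 + k)
    simp only [hΦ, add_sub_add_right_eq_sub] at this
    linarith
  -- time
  have d1 := ((he t0 ht0' x0).sub (he t0 ht0' y0)).sub ((hasDerivAt_id t0).const_mul lam)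
  have d2 := time_nonneg d1 ht0pos (fun s hs => by
    have := hglob s ⟨hs.1.le, hs.2.le.trans ht0.2⟩ x0 y0
    simp only [hΦ] at this
    simp only [Pi.sub_apply, id_eq]
    linarith)
  have m1 : |a t0 (Z t0 x0) * (‖fderiv ℝ (Z t0) x0‖ ^ 2 - 1)| ≤ A * (2 * √(8 * Zm * ε) + 8 * Zm * ε) := by
    rw [abs_mul]
    exact mul_le_mul (ha _ _) s1 (abs_nonneg _) hA0
  have m2 : |a t0 (Z t0 y0) * (‖fderiv ℝ (Z t0) y0‖ ^ 2 - 1)| ≤ A * (2 * √(8 * Zm * ε) + 8 * Zm * ε) := by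
    rw [abs_mul]
    exact mul_le_mul (ha _ _) s2 (abs_nonneg _) hA0
  have m3 := (abs_le.1 m1).2
  have m4 := (abs_le.1 m2).1
  linarith

theorem pf_DBL : Pool.Agent.H91.RF.T_DBL := by
  intro N T Zm A Z a hT hc hb h0 h2 ha he t ht x y
  have key : ∀ x y : E N, Z t x - Z t y ≤ ‖x - y‖ := by
    intro x y
    refine le_of_forall_pos_le_add fun μ hμ => ?_
    by_contra hcon
    push Not at hcon
    exact core hT hc hb h0 h2 ha he ht (x1 := x) (y1 := y) (μ := μ / 3) (by positivity) (by linarith)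
  rw [abs_le]
  refine ⟨?_, key x y⟩
  have := key y x
  rw [norm_sub_rev] at this
  linarith

end Pool.Agent.H48.RF.DBL
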