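import Pool.Agent.H48.RF.KE1

/-! Module KE2 of the board `rf_modules`: Duhamel's formula for the kernel. -/

open MeasureTheory Set Filter Topology Metric
open Pool.Agent.H29.TF
open Pool.Agent.H91.RD Pool.Agent.H91.RF

namespace Pool.Agent.H48.RF

variable {N : ℕ}

/-- the exchange of the sum and the inner integral -/
theorem tsum_inner {K : ℝ} {V : ℝ → E N → ℝ} (hV : Pt K V) {s r t : ℝ} (hsr : s < r) (hrt : r < t)
    (x y : E N) : ∑' n, ∫ z, inn V n ((t, x), (s, y)) r z =
      ∫ z, hk (t - r) (x - z) * (V r z * gk V r z s y) := by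
  have hm : ∀ n, Measurable fun z : E N => gkn V n r z s y := fun n =>
    (measurable_gkn hV.meas n).comp (by fun_prop : Measurable fun z : E N => ((r, z), (s, y)))
  rw [integral_tsum_of_summable_integral_norm]
  · refine integral_congr_ae (Filter.Eventually.of_forall fun z => ?_)
    show ∑' n, hk (t - r) (x - z) * (V r z * gkn V n r z s y) = _
    rw [tsum_mul_left, tsum_mul_left]
    rfl
  · intro n
    exact inner_int hV hsr hrt x y (hm n) (fun z => gkn_bound hV n s r hsr z y)
  · refine Summable.of_nonneg_of_le (fun n => integral_nonneg fun z => norm_nonneg _) (fun n =>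
      inner_norm_le hV hsr hrt x y (hm n) (fun z => gkn_bound hV n s r hsr z y)) ?_
    exact ((summable_cn K (r - s)).mul_left K).mul_right _

theorem integrable_outer {K : ℝ} {V : ℝ → E N → ℝ} (hV : Pt K V) {s t : ℝ} (hst : s < t) (x y : E N)
    (n : ℕ) : Integrable (fun r => ∫ z, inn V n ((t, x), (s, y)) r z) (volume.restrict (Ioc s t)) ∧
    ∫ r in Ioc s t, ‖∫ z, inn V n ((t, x), (s, y)) r z‖ ≤
      cn K (n + 1) (t - s) * hk (t - s) (x - y) := by
  have hmeas : Measurable fun r : ℝ => ∫ z, inn V n ((t, x), (s, y)) r z :=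
    (measurable_int_inn hV.meas n (measurable_gkn hV.meas n)).comp
      (by fun_prop : Measurable fun r : ℝ => (((t, x), (s, y)), r))
  have hbd : ∀ᵐ r ∂(volume.restrict (Ioc s t)), ‖∫ z, inn V n ((t, x), (s, y)) r z‖ ≤
      K * cn K n (r - s) * hk (t - s) (x - y) := by
    rw [ae_restrict_iff' measurableSet_Ioc]
    filter_upwards [compl_mem_ae_iff.2 (measure_singleton t)] with r hr hr'
    have hrt : r < t := lt_of_le_of_ne hr'.2 hr
    exact inner_le hV hr'.1 hrt x y (fun z => gkn_bound hV n s r hr'.1 z y)
  have hint : Integrable (fun r => K * cn K n (r - s) * hk (t - s) (x - y))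
      (volume.restrict (Ioc s t)) := by
    have : IntervalIntegrable (fun r => K * cn K n (r - s) * hk (t - s) (x - y)) volume s t := by
      apply Continuous.intervalIntegrable
      unfold cn
      fun_prop
    exact (intervalIntegrable_iff_integrableOn_Ioc_of_le hst.le).1 this
  have h1 : Integrable (fun r => ∫ z, inn V n ((t, x), (s, y)) r z) (volume.restrict (Ioc s t)) :=
    hint.mono' hmeas.aestronglyMeasurable hbd
  refine ⟨h1, (integral_mono_ae h1.norm hint hbd).trans_eq ?_⟩
  rw [← intervalIntegral.integral_of_le hst.le, intervalIntegral.integral_mul_const, cn_succ]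

theorem ke2 : T_KE2 := by
  intro N K V hV s t hst x y
  have hsum := summable_gkn hV hst x y
  have h0 : gk V t x s y = gkn V 0 t x s y + ∑' n, gkn V (n + 1) t x s y := hsum.tsum_eq_zero_add
  have hz : gkn V 0 t x s y = hk (t - s) (x - y) := rfl
  rw [h0, hz]
  congr 1
  have h1 : ∀ n, gkn V (n + 1) t x s y = ∫ r in Ioc s t, ∫ z, inn V n ((t, x), (s, y)) r z := by
    intro n
    rw [gkn_succ, intervalIntegral.integral_of_le hst.le]
  simp_rw [h1]
  rw [intervalIntegral.integral_of_le hst.le, integral_tsum_of_summable_integral_norm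
    (fun n => (integrable_outer hV hst x y n).1)]
  · refine integral_congr_ae ?_
    rw [Filter.EventuallyEq, ae_restrict_iff' measurableSet_Ioc]
    filter_upwards [compl_mem_ae_iff.2 (measure_singleton t)] with r hr hr'
    exact tsum_inner hV hr'.1 (lt_of_le_of_ne hr'.2 hr) x y
  · refine Summable.of_nonneg_of_le (fun n => integral_nonneg fun z => norm_nonneg _)
      (fun n => (integrable_outer hV hst x y n).2) ?_
    exact ((summable_nat_add_iff 1).2 (summable_cn K (t - s))).mul_right _

end Pool.Agent.H48.RF
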